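import Pool.Agent.Helper92.TN.GoalsH
import Pool.Agent.Helper29.BL.ADD

/-!
# TN, packet ADDG
-/

set_option autoImplicit false

namespace Pool.Agent.Helper40.TN.ADDG

open MvPolynomial WeierstrassCurve
open Pool.Agent.Helper29.BL Pool.Agent.Helper92.Ru Pool.Agent.Helper42.SG
open Pool.Agent.Helper60.T3 (WL IP zd)
open Pool.Agent.Helper92.TN

section deg

variable {R σ : Type} [CommRing R] {i : σ}

lemma dA {p q : MvPolynomial σ R} {n : ℕ} (hp : degreeOf i p ≤ n) (hq : degreeOf i q ≤ n) :
    degreeOf i (p + q) ≤ n := (degreeOf_add_le i p q).trans (max_le hp hq)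

lemma dM {p q : MvPolynomial σ R} {a b : ℕ} (hp : degreeOf i p ≤ a) (hq : degreeOf i q ≤ b) :
    degreeOf i (p * q) ≤ a + b := (degreeOf_mul_le i p q).trans (Nat.add_le_add hp hq)

lemma dC (c : R) (n : ℕ) : degreeOf i (C c : MvPolynomial σ R) ≤ n := by
  rw [degreeOf_C]; exact Nat.zero_le _

lemma dX [DecidableEq σ] (j : σ) : degreeOf i (X j : MvPolynomial σ R) ≤ if i = j then 1 else 0 := by
  split_ifs with h
  · subst h
    rcases subsingleton_or_nontrivial R with h | h
    · rw [Subsingleton.elim (X i : MvPolynomial σ R) 0, degreeOf_zero]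
      exact Nat.zero_le _
    · rw [degreeOf_X_self]
  · rw [degreeOf_X_of_ne h]

end deg

section pol

variable {R : Type} [CommRing R]

/-- the relation: `(x-y)² z² - T z + S` -/
noncomputable def rel (b2 b4 b6 b8 : R) : MvPolynomial (Option (Fin 2)) R :=
  (X (some 0) * X (some 0) + C (-2) * (X (some 0) * X (some 1)) + X (some 1) * X (some 1)) *
      (X none * X none) +
    (C (-2) * ((X (some 0) * X (some 0)) * X (some 1) + X (some 0) * (X (some 1) * X (some 1))) +
      C (-b2) * (X (some 0) * X (some 1)) + C (-b4) * (X (some 0) + X (some 1)) + C (-b6)) *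
      X none +
    ((X (some 0) * X (some 0)) * (X (some 1) * X (some 1)) + C (-b4) * (X (some 0) * X (some 1)) +
      C (-b6) * (X (some 0) + X (some 1)) + C (-b8))

lemma rel_deg (b2 b4 b6 b8 : R) (i : Fin 2) : degreeOf (some i) (rel b2 b4 b6 b8) ≤ 2 := by
  have hn : degreeOf (some i) (X none : MvPolynomial (Option (Fin 2)) R) ≤ 0 := by
    rw [degreeOf_X_of_ne (by simp)]
  have key : ∀ a b : ℕ, degreeOf (some i) (X (some 0) : MvPolynomial (Option (Fin 2)) R) ≤ a →
      degreeOf (some i) (X (some 1) : MvPolynomial (Option (Fin 2)) R) ≤ b → a ≤ 1 → b ≤ 1 →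
      a + b ≤ 1 → degreeOf (some i) (rel b2 b4 b6 b8) ≤ 2 := by
    intro a b ha hb ha1 hb1 hab
    unfold rel
    have m1 : degreeOf (some i) (X (some 0) * X (some 1) : MvPolynomial (Option (Fin 2)) R) ≤ 1 :=
      (dM ha hb).trans hab
    have e1 : degreeOf (some i) (X (some 0) : MvPolynomial (Option (Fin 2)) R) ≤ 1 := ha.trans ha1
    have e2 : degreeOf (some i) (X (some 1) : MvPolynomial (Option (Fin 2)) R) ≤ 1 := hb.trans hb1
    have m2 : degreeOf (some i) (X (some 0) * X (some 0) : MvPolynomial (Option (Fin 2)) R) ≤ 2 :=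
      dM e1 e1
    have m3 : degreeOf (some i) (X (some 1) * X (some 1) : MvPolynomial (Option (Fin 2)) R) ≤ 2 :=
      dM e2 e2
    refine dA (dA ?_ ?_) ?_
    · exact dM (a := 2) (b := 0) (dA (dA m2 (dM (a := 0) (b := 2) (dC _ 0)
        (m1.trans (by norm_num)))) m3) (dM (a := 0) (b := 0) hn hn)
    · refine dM (a := 2) (b := 0) (dA (dA (dA (dM (a := 0) (b := 2) (dC _ 0) (dA ?_ ?_))
        (dM (a := 0) (b := 2) (dC _ 0) (m1.trans (by norm_num))))
        (dM (a := 0) (b := 2) (dC _ 0) (dA (e1.trans (by norm_num)) (e2.trans (by norm_num)))))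
        (dC _ 2)) hn
      · rw [mul_assoc]
        exact dM (a := 1) (b := 1) e1 m1
      · rw [← mul_assoc]
        exact dM (a := 1) (b := 1) m1 e2
    · refine dA (dA (dA ?_ (dM (a := 0) (b := 2) (dC _ 0) (m1.trans (by norm_num))))
        (dM (a := 0) (b := 2) (dC _ 0) (dA (e1.trans (by norm_num)) (e2.trans (by norm_num)))))
        (dC _ 2)
      have e3 : (X (some 0) * X (some 0)) * (X (some 1) * X (some 1)) =
        (X (some 0) * X (some 1)) * (X (some 0) * X (some 1) : MvPolynomial (Option (Fin 2)) R) := by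
        ring
      rw [e3]
      exact dM (a := 1) (b := 1) m1 m1
  have h0 := dX (R := R) (i := some i) (some (0 : Fin 2))
  have h1 := dX (R := R) (i := some i) (some (1 : Fin 2))
  fin_cases i
  · exact key 1 0 (by simpa using h0) (by simpa using h1) (by norm_num) (by norm_num) (by norm_num)
  · exact key 0 1 (by simpa using h0) (by simpa using h1) (by norm_num) (by norm_num) (by norm_num)

lemma rel_aeval {M : Type} [CommRing M] [Algebra R M] (b2 b4 b6 b8 : R) (x y z : M) :
    aeval (fun o : Option (Fin 2) => o.elim z ![x, y]) (rel b2 b4 b6 b8) =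
      (x - y) ^ 2 * z ^ 2 - (2 * (x + y) * (x * y) + algebraMap R M b2 * (x * y) +
        algebraMap R M b4 * (x + y) + algebraMap R M b6) * z +
      ((x * y) ^ 2 - algebraMap R M b4 * (x * y) - algebraMap R M b6 * (x + y) -
        algebraMap R M b8) := by
  unfold rel
  simp only [map_add, map_mul, aeval_X, Option.elim_none, Option.elim_some, Matrix.cons_val_zero,
    Matrix.cons_val_one, algHom_C, map_neg, map_ofNat]
  ring

end pol

lemma xc_neg' {F : Type} [Field F] [DecidableEq F] {W : Affine F} (P : W.Point) :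
    xc (-P) = xc P := by
  rcases P with _ | ⟨x, y, h⟩ <;> rfl

lemma main (hB : DEGB) {K Ω : Type} [Field K] [CharZero K] [Field Ω] [IsAlgClosed Ω]
    [DecidableEq Ω] [Algebra K Ω] (W : Affine K) [W.IsElliptic] (k : IntermediateField K Ω) (t : Ω)
    (ht : Transcendental k t) (hz : ∀ z : Ω, IsAlgebraic (IntermediateField.adjoin k {t}) z)
    (P Q : (WL Ω W).Point) (hP : P ≠ 0) (hQ : Q ≠ 0) (hPQ : P + Q ≠ 0) :
    dg k t (xc (P + Q)) ≤ 2 * dg k t (xc P) + 2 * dg k t (xc Q) := by
  have hq := quadr Ω (WL Ω W) P Q hP hQ hPQ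
  obtain ⟨h1, h2⟩ := hq
  unfold Uf Tf Sf at h1
  have eb2 : (WL Ω W).b₂ = algebraMap k Ω (algebraMap K k W.b₂) := by
    rw [← IsScalarTower.algebraMap_apply]; exact W.map_b₂ _
  have eb4 : (WL Ω W).b₄ = algebraMap k Ω (algebraMap K k W.b₄) := by
    rw [← IsScalarTower.algebraMap_apply]; exact W.map_b₄ _
  have eb6 : (WL Ω W).b₆ = algebraMap k Ω (algebraMap K k W.b₆) := by
    rw [← IsScalarTower.algebraMap_apply]; exact W.map_b₆ _
  have eb8 : (WL Ω W).b₈ = algebraMap k Ω (algebraMap K k W.b₈) := by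
    rw [← IsScalarTower.algebraMap_apply]; exact W.map_b₈ _
  have hev : ∀ z : Ω, aeval (fun o : Option (Fin 2) => o.elim z ![xc P, xc Q])
      (rel (algebraMap K k W.b₂) (algebraMap K k W.b₄) (algebraMap K k W.b₆)
        (algebraMap K k W.b₈)) =
      Uf (xc Q) (xc P) * z ^ 2 - Tf (WL Ω W) (xc Q) (xc P) * z + Sf (WL Ω W) (xc Q) (xc P) := by
    intro z
    rw [rel_aeval, ← eb2, ← eb4, ← eb6, ← eb8]
    unfold Uf Tf Sf
    ring
  have : CharZero Ω := charZero_of_injective_algebraMap (algebraMap K Ω).injective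
  have h := hB k Ω t ht hz (Fin 2) ![xc P, xc Q] (xc (P + Q)) (fun _ => 2)
    (rel (algebraMap K k W.b₂) (algebraMap K k W.b₄) (algebraMap K k W.b₆) (algebraMap K k W.b₈))
    (fun i => rel_deg _ _ _ _ i) (by
      rw [hev]
      unfold Uf Tf Sf
      exact h1) (by
      by_contra hcon
      push Not at hcon
      have c0 := hcon 0
      have c1 := hcon 1
      have c2 := hcon (-1)
      rw [hev] at c0 c1 c2
      have hU : Uf (xc Q) (xc P) = 0 := by
        have h3 : (2 : Ω) * Uf (xc Q) (xc P) = 0 := by linear_combination c1 + c2 - 2 * c0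
        simpa using h3
      apply h2 hU
      have h4 : (2 : Ω) * Tf (WL Ω W) (xc Q) (xc P) = 0 := by linear_combination c2 - c1
      simpa using h4)
  simpa [Fin.sum_univ_two] using h

theorem t (hB : DEGB) (hF : DGF) : Pool.Agent.Helper92.TN.ADDG := by
  intro K Ω _ _ _ _ _ _ W _ k t ht hz
  have nn : ∀ f : Ω, 0 ≤ dg k t f := fun f => (hF k Ω t f ht).1
  have n0 : dg k t (0 : Ω) = 0 := (hF k Ω t 0 ht).2.1 (isAlgebraic_zero)
  have key : ∀ P Q : (WL Ω W).Point,
      dg k t (xc (P + Q)) ≤ 2 * dg k t (xc P) + 2 * dg k t (xc Q) := by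
    intro P Q
    by_cases hP : P = 0
    · rw [hP, zero_add, xc_zero, n0]
      linarith [nn (xc Q)]
    by_cases hQ : Q = 0
    · rw [hQ, add_zero, xc_zero, n0]
      linarith [nn (xc P)]
    by_cases hPQ : P + Q = 0
    · rw [hPQ, xc_zero, n0]
      linarith [nn (xc P), nn (xc Q)]
    exact main hB W k t ht hz P Q hP hQ hPQ
  intro P Q
  refine ⟨key P Q, ?_⟩
  have h := key P (-Q)
  rwa [xc_neg', ← sub_eq_add_neg] at h

end Pool.Agent.Helper40.TN.ADDG
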